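import Pool.Agent.Q241.EPG.Code

set_option autoImplicit false

/-!
# The bend-number of claw-free graphs is unbounded

Definitions (`Pool.Agent.Q241.EPG.Seg`, `.Code`): `grid` is the planar square grid, `bends l` the
number of bends of a list `l` of points, `Rep G k` the `k`-bend EPG representations of `G`,
`ClawFree G` means that `G` has no induced `K_{1,3}`.
-/

namespace Pool.Agent.Results.MP_fe8c60_co.Unbounded

open Pool.Agent.Q241.EPG

/-- the bend-number: the least `k` for which there is a `k`-bend EPG representation -/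
noncomputable def bendNumber {V : Type} (G : SimpleGraph V) : ℕ∞ :=
  ⨅ k : {k : ℕ // Nonempty (Rep G k)}, ((k : ℕ) : ℕ∞)

theorem lt_bendNumber {V : Type} {G : SimpleGraph V} {k : ℕ} (h : IsEmpty (Rep G k)) :
    (k : ℕ∞) < bendNumber G := by
  have h1 : ((k + 1 : ℕ) : ℕ∞) ≤ bendNumber G := by
    refine le_iInf fun ⟨l, ⟨R⟩⟩ => ?_
    show ((k + 1 : ℕ) : ℕ∞) ≤ ((l : ℕ) : ℕ∞)
    rw [Nat.cast_le]
    by_contra hcon
    exact h.false ⟨R.src, R.tgt, R.path, R.isPath, fun v => (R.bends_le v).trans (by omega),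
      R.adj_iff⟩
  exact lt_of_lt_of_le (by exact_mod_cast Nat.lt_succ_self k) h1

theorem count (m k : ℕ) (h : 2 * (6 * Nat.clog 2 m + 11) * (k + 1) < m) :
    Fintype.card (Fin m ⊕ Fin m → Code (k + 1)
      (Fintype.card (Fin m ⊕ Fin m) * ((k + 1) * 3) + 1)) < 2 ^ (m * m) := by
  set j := Nat.clog 2 m with hj
  have hm : m ≤ 2 ^ j := Nat.le_pow_clog (by norm_num) m
  have hk : k + 1 ≤ m := by nlinarith
  set M := Fintype.card (Fin m ⊕ Fin m) * ((k + 1) * 3) + 1 with hM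
  have hM1 : M ≤ 2 ^ (2 * j + 3) := by
    have h1 : M = 6 * (m * (k + 1)) + 1 := by
      rw [hM]; simp only [Fintype.card_sum, Fintype.card_fin]; ring
    have h2 : m * (k + 1) ≤ 2 ^ j * 2 ^ j := Nat.mul_le_mul hm (hk.trans hm)
    have h3 : 1 ≤ 2 ^ j * 2 ^ j := Nat.one_le_iff_ne_zero.2 (by positivity)
    have h4 : 2 ^ (2 * j + 3) = 8 * (2 ^ j * 2 ^ j) := by
      rw [pow_add, two_mul, pow_add]; ring
    rw [h1, h4]
    omega
  have h1 : Fintype.card (Option (Bool × Fin M × Fin M × Fin M)) ≤ 2 ^ (6 * j + 11) := by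
    simp only [Fintype.card_option, Fintype.card_prod, Fintype.card_bool, Fintype.card_fin]
    have h2 : M * (M * M) ≤ 2 ^ (2 * j + 3) * (2 ^ (2 * j + 3) * 2 ^ (2 * j + 3)) :=
      Nat.mul_le_mul hM1 (Nat.mul_le_mul hM1 hM1)
    have h3 : 2 ^ (2 * j + 3) * (2 ^ (2 * j + 3) * 2 ^ (2 * j + 3)) = 2 ^ (6 * j + 9) := by
      rw [← pow_add, ← pow_add]; congr 1; ring
    have h4 : 2 ^ (6 * j + 11) = 4 * 2 ^ (6 * j + 9) := by
      rw [show 6 * j + 11 = 6 * j + 9 + 2 by ring, pow_add]; ring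
    have h5 : 1 ≤ 2 ^ (6 * j + 9) := Nat.one_le_two_pow
    rw [h4]
    omega
  have h2 : Fintype.card (Fin m ⊕ Fin m → Code (k + 1) M) =
      ((Fintype.card (Option (Bool × Fin M × Fin M × Fin M))) ^ (k + 1)) ^ (m + m) := by
    simp only [Code, Fintype.card_fun, Fintype.card_sum, Fintype.card_fin]
  rw [h2]
  calc ((Fintype.card (Option (Bool × Fin M × Fin M × Fin M))) ^ (k + 1)) ^ (m + m)
      ≤ ((2 ^ (6 * j + 11)) ^ (k + 1)) ^ (m + m) :=
        Nat.pow_le_pow_left (Nat.pow_le_pow_left h1 _) _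
    _ = 2 ^ (2 * (6 * j + 11) * (k + 1) * m) := by
        rw [← pow_mul, ← pow_mul]; congr 1; ring
    _ < 2 ^ (m * m) := by
        apply Nat.pow_lt_pow_right (by norm_num)
        exact Nat.mul_lt_mul_of_pos_right h (by omega)

/-- **The bend-number of claw-free graphs is unbounded.** More precisely, if
`2 (6 ⌈log₂ m⌉ + 11) (k + 1) < m`, there is a claw-free graph with `2 m` vertices, the union of two
cliques with some edges between them, whose bend-number is larger than `k`. -/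
theorem result :
    (∀ k : ℕ, ∃ (m : ℕ) (G : SimpleGraph (Fin m ⊕ Fin m)), ClawFree G ∧
      (k : ℕ∞) < bendNumber G) ∧
    (∀ m k : ℕ, 2 * (6 * Nat.clog 2 m + 11) * (k + 1) < m →
      ∃ G : SimpleGraph (Fin m ⊕ Fin m), (∀ i j, i ≠ j → G.Adj (Sum.inl i) (Sum.inl j)) ∧
        (∀ i j, i ≠ j → G.Adj (Sum.inr i) (Sum.inr j)) ∧ ClawFree G ∧
        (k : ℕ∞) < bendNumber G) := by
  have key : ∀ m k : ℕ, 2 * (6 * Nat.clog 2 m + 11) * (k + 1) < m →
      ∃ G : SimpleGraph (Fin m ⊕ Fin m), (∀ i j, i ≠ j → G.Adj (Sum.inl i) (Sum.inl j)) ∧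
        (∀ i j, i ≠ j → G.Adj (Sum.inr i) (Sum.inr j)) ∧ ClawFree G ∧
        (k : ℕ∞) < bendNumber G := by
    intro m k h
    obtain ⟨R, hR⟩ := exists_no_rep k m (count m k h)
    refine ⟨cob m R, fun i j hij => ⟨by simpa using hij, trivial⟩,
      fun i j hij => ⟨by simpa using hij, trivial⟩, cob_clawFree m R, lt_bendNumber hR⟩
  refine ⟨fun k => ?_, key⟩
  have h : 2 * (6 * Nat.clog 2 (2 ^ (2 * k + 10)) + 11) * (k + 1) < 2 ^ (2 * k + 10) := by
    rw [Nat.clog_pow 2 _ (by norm_num)]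
    have h1 : k + 1 ≤ 2 ^ k := Nat.lt_two_pow_self
    have h2 : 2 ^ (2 * k + 10) = 1024 * (2 ^ k * 2 ^ k) := by
      rw [pow_add, two_mul, pow_add]; ring
    have h3 : (k + 1) * (k + 1) ≤ 2 ^ k * 2 ^ k := Nat.mul_le_mul h1 h1
    rw [h2]
    nlinarith
  obtain ⟨G, _, _, h3, h4⟩ := key _ k h
  exact ⟨_, G, h3, h4⟩

end Pool.Agent.Results.MP_fe8c60_co.Unbounded
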